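import Mathlib
import Pool.Agent.Lib.MP_862149_co.Own

/-!
Problem MP_862149_co, Q1: a finite 2-edge-connected graph whose flow polynomial is negative
at `11 / 2`.
-/

set_option autoImplicit false

namespace Pool.Agent.Results.MP_862149_co.NegativeAtElevenHalves

/-- A graph is given by its vertices `V`, its edges `E` and an orientation: the edge `e` goes from
`s e` to `t e` (loops and parallel edges are allowed).  `Joined s t A x y`: the vertices `x` and `y`
are equal or joined by a path of edges in `A` (in any direction). -/
def Joined {V E : Type} (s t : E → V) (A : Set E) : V → V → Prop :=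
  Relation.EqvGen (fun x y => ∃ e ∈ A, s e = x ∧ t e = y)

/-- The graph has a vertex, is connected, and is still connected after removing any one edge. -/
def TwoEdgeConnected {V E : Type} (s t : E → V) : Prop :=
  Nonempty V ∧ (∀ x y, Joined s t Set.univ x y) ∧ ∀ e : E, ∀ x y, Joined s t {e}ᶜ x y

open Classical in
/-- Nowhere-zero `ℤ_k`-flows: nonzero values on the edges such that at every vertex the sum over
the incoming edges equals the sum over the outgoing edges. -/
def NowhereZeroFlow {V E : Type} [Fintype E] (s t : E → V) (k : ℕ) : Type :=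
  {f : E → ZMod k // (∀ e, f e ≠ 0) ∧
    ∀ v : V, ∑ e ∈ Finset.univ.filter (fun e => t e = v), f e =
      ∑ e ∈ Finset.univ.filter (fun e => s e = v), f e}

/-- `P` is the flow polynomial of the graph. -/
def IsFlowPolynomial {V E : Type} [Fintype E] (s t : E → V) (P : Polynomial ℤ) : Prop :=
  ∀ k : ℕ, 1 ≤ k → P.eval (k : ℤ) = Nat.card (NowhereZeroFlow s t k)

open Pool.Agent.MP_862149_co in
lemma joined_of_top {V E : Type} [DecidableEq E] (a b : E → V) (r : Setoid V) (A : Finset E)
    (h : r ⊔ gen a b A = ⊤) (B : Set E) (hB : ∀ e ∈ A, e ∈ B) (x y : Quotient r) :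
    Joined (fun e => Quotient.mk r (a e)) (fun e => Quotient.mk r (b e)) B x y := by
  let J : Setoid (Quotient r) := Relation.EqvGen.setoid
    (fun x y => ∃ e ∈ B, Quotient.mk r (a e) = x ∧ Quotient.mk r (b e) = y)
  have hle : r ⊔ gen a b A ≤ Setoid.comap (Quotient.mk r) J := by
    apply sup_le
    · intro u v huv
      show J (Quotient.mk r u) (Quotient.mk r v)
      rw [Quotient.sound huv]
    · apply Finset.sup_le
      intro e he
      apply pr_le
      exact Relation.EqvGen.rel _ _ ⟨e, hB e he, rfl, rfl⟩
  induction x using Quotient.inductionOn with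
  | h u =>
  induction y using Quotient.inductionOn with
  | h v =>
  have : (r ⊔ gen a b A) u v := by
    rw [h]
    trivial
  exact hle this

open Pool.Agent.MP_862149_co in
/-- There is a finite 2-edge-connected graph, with at most 334 vertices, whose flow polynomial is
negative at `11 / 2`. -/
theorem result :
    ∃ (V E : Type) (_ : Fintype V) (_ : Fintype E) (s t : E → V),
      Fintype.card V ≤ 334 ∧ TwoEdgeConnected s t ∧
      ∃ P : Polynomial ℤ, IsFlowPolynomial s t P ∧ Polynomial.aeval (11 / 2 : ℝ) P < 0 := by
  classical
  obtain ⟨n, a, b, r, h1, h2, h3⟩ := exists_graph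
  have : Fintype (Quotient r) := Fintype.ofFinite _
  refine ⟨Quotient r, Fin n, inferInstance, inferInstance, fun e => Quotient.mk r (a e),
    fun e => Quotient.mk r (b e), ?_, ⟨⟨Quotient.mk r 0⟩, ?_, ?_⟩, fpoly a b r, ?_, ?_⟩
  · have := Fintype.card_le_of_surjective (Quotient.mk r) Quotient.mk_surjective
    rwa [Fintype.card_fin] at this
  · exact joined_of_top a b r Finset.univ h1 _ (fun e _ => Set.mem_univ e)
  · intro e
    exact joined_of_top a b r _ (h2 e) _ (fun e' he' => by
      simp only [Set.mem_compl_iff, Set.mem_singleton_iff]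
      exact (Finset.mem_erase.1 he').1)
  · intro k hk
    rw [fpoly_eval a b r k hk]
    unfold NowhereZeroFlow Conserved
    congr!
  · have h4 := fpoly_aeval a b r (11 / 2)
    have h5 : (0 : ℝ) < (11 / 2 : ℝ) ^ K r := by positivity
    by_contra hcon
    have h6 := mul_nonneg h5.le (not_lt.1 hcon)
    rw [h4] at h6
    exact absurd h3 (not_lt.2 h6)

end Pool.Agent.Results.MP_862149_co.NegativeAtElevenHalves
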